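import Pool.Agent.Helper7.TN.Smooth

/-!
# TN: all derivatives in `b` of a Gibbs expectation are bounded by powers of the bound of the action
-/

set_option autoImplicit false
set_option linter.unusedSectionVars false

namespace Pool.Agent.Helper7.TN

open MeasureTheory Filter Topology Set

/-- The expectation of `u` with the weight `exp (b A)`. -/
noncomputable def gb {X : Type*} [MeasurableSpace X] (mu : Measure X) (A : X → ℝ) (u : X → ℂ)
    (b : ℝ) : ℂ :=
  (∫ x, u x * (Real.exp (b * A x) : ℂ) ∂mu) / ((∫ x, Real.exp (b * A x) ∂mu : ℝ) : ℂ)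

section

variable {X : Type*} [TopologicalSpace X] [MeasurableSpace X] [BorelSpace X]
  (mu : Measure X) [IsProbabilityMeasure mu] {A : X → ℝ} (hA : Continuous A) {a : ℝ}
  (ha : ∀ x, |A x| ≤ a)

include hA ha

theorem exp_le (b : ℝ) (x : X) : Real.exp (b * A x) ≤ Real.exp (|b| * a) := by
  apply Real.exp_le_exp.2
  calc b * A x ≤ |b * A x| := le_abs_self _
    _ = |b| * |A x| := abs_mul _ _
    _ ≤ |b| * a := mul_le_mul_of_nonneg_left (ha x) (abs_nonneg _)

theorem int_exp (b : ℝ) : Integrable (fun x => Real.exp (b * A x)) mu := by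
  refine Integrable.of_bound (Real.continuous_exp.comp
    (continuous_const.mul hA)).aestronglyMeasurable (Real.exp (|b| * a))
    (Eventually.of_forall fun x => ?_)
  rw [Real.norm_eq_abs, abs_of_pos (Real.exp_pos _)]
  exact exp_le hA ha b x

theorem int_num {u : X → ℂ} (hu : Continuous u) {C : ℝ} (hC : ∀ x, ‖u x‖ ≤ C) (b : ℝ) :
    Integrable (fun x => u x * (Real.exp (b * A x) : ℂ)) mu := by
  have h0 : 0 ≤ C := by
    obtain ⟨x⟩ := nonempty_of_isProbabilityMeasure mu
    exact (norm_nonneg _).trans (hC x)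
  refine Integrable.of_bound (hu.mul (Complex.continuous_ofReal.comp (Real.continuous_exp.comp
    (continuous_const.mul hA)))).aestronglyMeasurable (C * Real.exp (|b| * a))
    (Eventually.of_forall fun x => ?_)
  rw [norm_mul, Complex.norm_real, Real.norm_eq_abs, abs_of_pos (Real.exp_pos _)]
  exact mul_le_mul (hC x) (exp_le hA ha b x) (Real.exp_pos _).le h0

theorem Z_pos (b : ℝ) : 0 < ∫ x, Real.exp (b * A x) ∂mu :=
  integral_exp_pos (int_exp mu hA ha b)

theorem gb_norm {u : X → ℂ} (hu : Continuous u) {C : ℝ} (hC : ∀ x, ‖u x‖ ≤ C) (b : ℝ) :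
    ‖gb mu A u b‖ ≤ C := by
  have hZ := Z_pos mu hA ha b
  unfold gb
  rw [norm_div, Complex.norm_real, Real.norm_eq_abs, abs_of_pos hZ, div_le_iff₀ hZ]
  refine (norm_integral_le_integral_norm _).trans ?_
  rw [← integral_const_mul]
  refine integral_mono (int_num mu hA ha hu hC b).norm ((int_exp mu hA ha b).const_mul C) ?_
  intro x
  show ‖u x * (Real.exp (b * A x) : ℂ)‖ ≤ C * Real.exp (b * A x)
  rw [norm_mul, Complex.norm_real, Real.norm_eq_abs, abs_of_pos (Real.exp_pos _)]
  exact mul_le_mul_of_nonneg_right (hC x) (Real.exp_pos _).le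

theorem num_deriv {u : X → ℂ} (hu : Continuous u) {C : ℝ} (hC : ∀ x, ‖u x‖ ≤ C) (b : ℝ) :
    HasDerivAt (fun b : ℝ => ∫ x, u x * (Real.exp (b * A x) : ℂ) ∂mu)
      (∫ x, u x * (A x : ℂ) * (Real.exp (b * A x) : ℂ) ∂mu) b := by
  have h0 : 0 ≤ C := by
    obtain ⟨x⟩ := nonempty_of_isProbabilityMeasure mu
    exact (norm_nonneg _).trans (hC x)
  have ha0 : 0 ≤ a := by
    obtain ⟨x⟩ := nonempty_of_isProbabilityMeasure mu
    exact (abs_nonneg _).trans (ha x)
  refine (hasDerivAt_integral_of_dominated_loc_of_deriv_le (μ := mu) (s := Metric.ball b 1)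
    (F := fun (b : ℝ) (x : X) => u x * (Real.exp (b * A x) : ℂ))
    (F' := fun (b : ℝ) (x : X) => u x * (A x : ℂ) * (Real.exp (b * A x) : ℂ))
    (bound := fun _ => C * a * Real.exp ((|b| + 1) * a)) (Metric.ball_mem_nhds b one_pos)
    (Eventually.of_forall fun c => (int_num mu hA ha hu hC c).aestronglyMeasurable)
    (int_num mu hA ha hu hC b) ?_ ?_ (integrable_const _) ?_).2
  · exact ((hu.mul (Complex.continuous_ofReal.comp hA)).mul (Complex.continuous_ofReal.comp
      (Real.continuous_exp.comp (continuous_const.mul hA)))).aestronglyMeasurable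
  · refine Eventually.of_forall fun x c hc => ?_
    have h1 : |c| ≤ |b| + 1 := by
      have h2 : |c - b| < 1 := by simpa [Real.dist_eq] using hc
      have h3 := abs_add_le b (c - b)
      rw [add_sub_cancel] at h3
      linarith
    rw [norm_mul, norm_mul, Complex.norm_real, Complex.norm_real, Real.norm_eq_abs,
      Real.norm_eq_abs, abs_of_pos (Real.exp_pos _)]
    refine mul_le_mul (mul_le_mul (hC x) (ha x) (abs_nonneg _) h0) ?_ (Real.exp_pos _).le
      (mul_nonneg h0 ha0)
    refine (exp_le hA ha c x).trans (Real.exp_le_exp.2 ?_)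
    exact mul_le_mul_of_nonneg_right h1 ha0
  · refine Eventually.of_forall fun x c _ => ?_
    have h1 : HasDerivAt (fun b : ℝ => b * A x) (A x) c := by
      simpa using (hasDerivAt_id c).mul_const (A x)
    have h2 := (h1.exp).ofReal_comp
    have h3 := h2.const_mul (u x)
    refine h3.congr_deriv ?_
    push_cast
    ring

theorem gb_deriv {u : X → ℂ} (hu : Continuous u) {C : ℝ} (hC : ∀ x, ‖u x‖ ≤ C) (b : ℝ) :
    HasDerivAt (gb mu A u) (gb mu A (fun x => u x * (A x : ℂ)) b -
      gb mu A u b * gb mu A (fun x => (A x : ℂ)) b) b := by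
  have hZ := Z_pos mu hA ha b
  have h1 := num_deriv mu hA ha hu hC b
  have h2 := num_deriv mu hA ha (u := fun _ => (1 : ℂ)) continuous_const (C := 1)
    (fun _ => by simp) b
  have e1 : ∀ c : ℝ, ((∫ x, Real.exp (c * A x) ∂mu : ℝ) : ℂ) =
      ∫ x, (1 : ℂ) * (Real.exp (c * A x) : ℂ) ∂mu := by
    intro c
    rw [← integral_complex_ofReal]
    simp
  have hZ' : (∫ x, (1 : ℂ) * (Real.exp (b * A x) : ℂ) ∂mu) ≠ 0 := by
    rw [← e1]
    exact_mod_cast hZ.ne'
  have h3 := h1.div h2 hZ'
  have e2 : gb mu A u = fun b : ℝ => (∫ x, u x * (Real.exp (b * A x) : ℂ) ∂mu) /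
      ∫ x, (1 : ℂ) * (Real.exp (b * A x) : ℂ) ∂mu := by
    funext c
    unfold gb
    rw [e1]
  rw [e2]
  refine h3.congr_deriv ?_
  unfold gb
  rw [e1]
  simp only [one_mul] at hZ' ⊢
  field_simp

end

theorem gb_bd (k : ℕ) : ∃ (c : ℝ) (e : ℕ), 0 ≤ c ∧
    ∀ {X : Type} [TopologicalSpace X] [MeasurableSpace X] [BorelSpace X] (mu : Measure X)
      [IsProbabilityMeasure mu] {A : X → ℝ} (_ : Continuous A) {a : ℝ} (_ : ∀ x, |A x| ≤ a)
      {u : X → ℂ} (_ : Continuous u) {C : ℝ} (_ : ∀ x, ‖u x‖ ≤ C),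
      Bd k (c * C * (1 + a) ^ e) (gb mu A u) := by
  induction k with
  | zero =>
    refine ⟨1, 0, zero_le_one, fun mu _ A hA a ha u hu C hC b => ?_⟩
    simpa using gb_norm mu hA ha hu hC b
  | succ k ih =>
    obtain ⟨c, e, hc, h⟩ := ih
    refine ⟨1 + c + 2 ^ k * c ^ 2, 2 * e + 1, by positivity, fun mu _ A hA a ha u hu C hC => ?_⟩
    obtain ⟨x0⟩ := nonempty_of_isProbabilityMeasure mu
    have hC0 : 0 ≤ C := (norm_nonneg _).trans (hC x0)
    have ha0 : 0 ≤ a := (abs_nonneg _).trans (ha x0)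
    have hp1 : (1 : ℝ) ≤ (1 + a) ^ (2 * e + 1) := one_le_pow₀ (by linarith)
    have hcc : (0 : ℝ) ≤ 2 ^ k * c ^ 2 := by positivity
    refine ⟨fun b => ?_, _, gb_deriv mu hA ha hu hC, ?_⟩
    · refine (gb_norm mu hA ha hu hC b).trans ?_
      calc C = 1 * C * 1 := by ring
        _ ≤ (1 + c + 2 ^ k * c ^ 2) * C * (1 + a) ^ (2 * e + 1) :=
          mul_le_mul (mul_le_mul_of_nonneg_right (by linarith) hC0) hp1 zero_le_one (by positivity)
    · have hAc : Continuous fun x => (A x : ℂ) := Complex.continuous_ofReal.comp hA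
      have hAn : ∀ x, ‖(A x : ℂ)‖ ≤ a := fun x => by
        rw [Complex.norm_real]
        exact ha x
      have huA : ∀ x, ‖u x * (A x : ℂ)‖ ≤ C * a := fun x => by
        rw [norm_mul]
        exact mul_le_mul (hC x) (hAn x) (norm_nonneg _) hC0
      have k1 := h mu hA ha (hu.mul hAc) huA
      have k2 := h mu hA ha hu hC
      have k3 := h mu hA ha hAc hAn
      have k4 := k1.sub (k2.mul (by positivity) (by positivity) k3)
      refine k4.mono ?_
      have hpe : (1 + a) ^ e ≤ (1 + a) ^ (2 * e) :=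
        pow_le_pow_right₀ (by linarith) (by omega)
      have hpos : (0 : ℝ) ≤ (1 + a) ^ (2 * e) := by positivity
      have e1 : c * (C * a) * (1 + a) ^ e ≤ c * C * ((1 + a) ^ (2 * e) * (1 + a)) := by
        have : a * (1 + a) ^ e ≤ (1 + a) ^ (2 * e) * (1 + a) := by
          rw [mul_comm]
          exact mul_le_mul hpe (by linarith) ha0 hpos
        have h5 := mul_le_mul_of_nonneg_left this (mul_nonneg hc hC0)
        calc c * (C * a) * (1 + a) ^ e = c * C * (a * (1 + a) ^ e) := by ring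
          _ ≤ _ := h5
      have e2 : 2 ^ k * (c * C * (1 + a) ^ e) * (c * a * (1 + a) ^ e) ≤
          2 ^ k * c ^ 2 * C * ((1 + a) ^ (2 * e) * (1 + a)) := by
        have : a * (1 + a) ^ (2 * e) ≤ (1 + a) ^ (2 * e) * (1 + a) := by
          rw [mul_comm]
          exact mul_le_mul_of_nonneg_left (by linarith) hpos
        have h5 := mul_le_mul_of_nonneg_left this (mul_nonneg hcc hC0)
        calc 2 ^ k * (c * C * (1 + a) ^ e) * (c * a * (1 + a) ^ e) =
            2 ^ k * c ^ 2 * C * (a * (1 + a) ^ (2 * e)) := by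
              rw [two_mul e, pow_add]
              ring
          _ ≤ _ := h5
      have e3 : (0 : ℝ) ≤ C * ((1 + a) ^ (2 * e) * (1 + a)) := by positivity
      have e4 : (1 + c + 2 ^ k * c ^ 2) * C * (1 + a) ^ (2 * e + 1) =
          C * ((1 + a) ^ (2 * e) * (1 + a)) + c * C * ((1 + a) ^ (2 * e) * (1 + a)) +
            2 ^ k * c ^ 2 * C * ((1 + a) ^ (2 * e) * (1 + a)) := by
        rw [pow_succ (1 + a) (2 * e)]
        ring
      rw [e4]
      linarith

end Pool.Agent.Helper7.TN
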