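import Mathlib

/-!
# TN: exponential convergence and polynomially bounded derivatives give a smooth limit
-/

set_option autoImplicit false

namespace Pool.Agent.Helper7.TN

open Filter Topology Set

/-- `F` has derivatives up to the order `k`, and they are all bounded by `M`. -/
def Bd : ℕ → ℝ → (ℝ → ℂ) → Prop
  | 0, M, F => ∀ b, ‖F b‖ ≤ M
  | k + 1, M, F => (∀ b, ‖F b‖ ≤ M) ∧ ∃ F' : ℝ → ℂ, (∀ b, HasDerivAt F (F' b) b) ∧ Bd k M F'

theorem Bd.le {k : ℕ} {M : ℝ} {F : ℝ → ℂ} (h : Bd k M F) (b : ℝ) : ‖F b‖ ≤ M := by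
  cases k with
  | zero => exact h b
  | succ k => exact h.1 b

theorem Bd.mono {k : ℕ} {M M' : ℝ} (hM : M ≤ M') : ∀ {F : ℝ → ℂ}, Bd k M F → Bd k M' F := by
  induction k with
  | zero => exact fun h b => (h b).trans hM
  | succ k ih =>
    rintro F ⟨h1, F', h2, h3⟩
    exact ⟨fun b => (h1 b).trans hM, F', h2, ih h3⟩

theorem Bd.of_succ {k : ℕ} {M : ℝ} : ∀ {F : ℝ → ℂ}, Bd (k + 1) M F → Bd k M F := by
  induction k with
  | zero => exact fun h b => h.1 b
  | succ k ih =>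
    rintro F ⟨h1, F', h2, h3⟩
    exact ⟨h1, F', h2, ih h3⟩

theorem Bd.sub {k : ℕ} {M N : ℝ} : ∀ {F G : ℝ → ℂ}, Bd k M F → Bd k N G →
    Bd k (M + N) (fun b => F b - G b) := by
  induction k with
  | zero => exact fun h h' b => (norm_sub_le _ _).trans (add_le_add (h b) (h' b))
  | succ k ih =>
    rintro F G ⟨h1, F', h2, h3⟩ ⟨g1, G', g2, g3⟩
    exact ⟨fun b => (norm_sub_le _ _).trans (add_le_add (h1 b) (g1 b)), fun b => F' b - G' b,
      fun b => (h2 b).sub (g2 b), ih h3 g3⟩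

theorem Bd.add {k : ℕ} {M N : ℝ} : ∀ {F G : ℝ → ℂ}, Bd k M F → Bd k N G →
    Bd k (M + N) (fun b => F b + G b) := by
  induction k with
  | zero => exact fun h h' b => (norm_add_le _ _).trans (add_le_add (h b) (h' b))
  | succ k ih =>
    rintro F G ⟨h1, F', h2, h3⟩ ⟨g1, G', g2, g3⟩
    exact ⟨fun b => (norm_add_le _ _).trans (add_le_add (h1 b) (g1 b)), fun b => F' b + G' b,
      fun b => (h2 b).add (g2 b), ih h3 g3⟩

theorem Bd.mul {k : ℕ} {M N : ℝ} (hM : 0 ≤ M) (hN : 0 ≤ N) : ∀ {F G : ℝ → ℂ}, Bd k M F →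
    Bd k N G → Bd k (2 ^ k * M * N) (fun b => F b * G b) := by
  induction k with
  | zero =>
    intro F G h h' b
    rw [norm_mul, pow_zero, one_mul]
    exact mul_le_mul (h b) (h' b) (norm_nonneg _) hM
  | succ k ih =>
    intro F G hF hG
    have hF0 := hF.of_succ
    have hG0 := hG.of_succ
    obtain ⟨h1, F', h2, h3⟩ := hF
    obtain ⟨g1, G', g2, g3⟩ := hG
    have hMN : 0 ≤ M * N := mul_nonneg hM hN
    refine ⟨fun b => ?_, fun b => F' b * G b + F b * G' b, fun b => (h2 b).mul (g2 b), ?_⟩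
    · rw [norm_mul]
      have e1 : ‖F b‖ * ‖G b‖ ≤ M * N := mul_le_mul (h1 b) (g1 b) (norm_nonneg _) hM
      have e2 : (1 : ℝ) ≤ 2 ^ (k + 1) := one_le_pow₀ (by norm_num)
      calc ‖F b‖ * ‖G b‖ ≤ 1 * (M * N) := by linarith
        _ ≤ 2 ^ (k + 1) * (M * N) := mul_le_mul_of_nonneg_right e2 hMN
        _ = 2 ^ (k + 1) * M * N := by ring
    · refine ((ih h3 hG0).add (ih hF0 g3)).mono (le_of_eq ?_)
      ring

theorem Bd.der {k : ℕ} {M : ℝ} {F : ℝ → ℂ} (h : Bd (k + 1) M F) :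
    (∀ b, HasDerivAt F (deriv F b) b) ∧ Bd k M (deriv F) := by
  obtain ⟨_, F', h2, h3⟩ := h
  have e : deriv F = F' := funext fun b => (h2 b).deriv
  rw [e]
  exact ⟨h2, h3⟩

/-- Landau: a small function with a bounded second derivative has a small derivative. -/
theorem landau {D D1 D2 : ℝ → ℂ} {b₀ δ ε M b h : ℝ} (h1 : ∀ b, HasDerivAt D (D1 b) b)
    (h2 : ∀ b, HasDerivAt D1 (D2 b) b) (hD : ∀ b, |b - b₀| < δ → ‖D b‖ ≤ ε)
    (hM : ∀ b, ‖D2 b‖ ≤ M) (hb : |b - b₀| < δ / 2) (hh : 0 < h) (hh2 : h < δ / 2) :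
    ‖D1 b‖ ≤ 2 * ε / h + M * h := by
  have hM0 : 0 ≤ M := (norm_nonneg _).trans (hM 0)
  have e1 : ∀ t ∈ Icc (0 : ℝ) h, ‖D1 (b + t) - D1 b‖ ≤ M * h := by
    intro t ht
    have := Convex.norm_image_sub_le_of_norm_hasDerivWithin_le (f := D1) (f' := D2) (C := M)
      (s := univ) (x := b) (y := b + t) (fun x _ => (h2 x).hasDerivWithinAt) (fun x _ => hM x)
      convex_univ (mem_univ _) (mem_univ _)
    refine this.trans (mul_le_mul_of_nonneg_left ?_ hM0)
    rw [add_sub_cancel_left, Real.norm_eq_abs, abs_of_nonneg ht.1]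
    exact ht.2
  have e2 : ∀ t ∈ Icc (0 : ℝ) h, HasDerivWithinAt (fun t : ℝ => D (b + t) - (t : ℂ) * D1 b)
      (D1 (b + t) - D1 b) (Icc 0 h) t := by
    intro t _
    have k1 : HasDerivAt (fun t : ℝ => D (b + t)) (D1 (b + t)) t := (h1 (b + t)).comp_const_add b t
    have k2 : HasDerivAt (fun t : ℝ => (t : ℂ) * D1 b) (1 * D1 b) t :=
      (Complex.ofRealCLM.hasDerivAt (x := t)).mul_const (D1 b)
    rw [one_mul] at k2
    exact (k1.sub k2).hasDerivWithinAt
  have e3 := Convex.norm_image_sub_le_of_norm_hasDerivWithin_le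
    (f := fun t : ℝ => D (b + t) - (t : ℂ) * D1 b) (C := M * h) (s := Icc (0 : ℝ) h) (x := 0) (y := h)
    e2 e1 (convex_Icc 0 h) ⟨le_rfl, hh.le⟩ ⟨hh.le, le_rfl⟩
  simp only [add_zero, Complex.ofReal_zero, zero_mul, sub_zero, Real.norm_eq_abs] at e3
  rw [abs_of_pos hh] at e3
  have k0 : |b - b₀| < δ := by
    have : 0 ≤ |b - b₀| := abs_nonneg _
    linarith
  have k1 := hD b k0
  have k2 : ‖D (b + h)‖ ≤ ε := by
    apply hD
    have := abs_add_le (b - b₀) h
    rw [abs_of_pos hh] at this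
    have e : b + h - b₀ = b - b₀ + h := by ring
    rw [e]
    linarith
  have k3 : ‖(h : ℂ) * D1 b‖ ≤ 2 * ε + M * h * h := by
    have e : (h : ℂ) * D1 b = D (b + h) - D b - (D (b + h) - (h : ℂ) * D1 b - D b) := by ring
    rw [e]
    refine (norm_sub_le _ _).trans ?_
    have := norm_sub_le (D (b + h)) (D b)
    linarith
  rw [norm_mul, Complex.norm_real, Real.norm_eq_abs, abs_of_pos hh] at k3
  have k4 : ‖D1 b‖ ≤ (2 * ε + M * h * h) / h := by
    rw [le_div_iff₀ hh]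
    linarith
  refine k4.trans (le_of_eq ?_)
  field_simp

theorem poly_exp {c : ℝ} (hc : 0 < c) (q : ℕ) :
    ∃ P : ℝ, 0 ≤ P ∧ ∀ n : ℕ, ((n : ℝ) + 2) ^ q * Real.exp (-(c * n)) ≤ P := by
  refine ⟨(q.factorial : ℝ) / c ^ q * Real.exp (2 * c), by positivity, fun n => ?_⟩
  have h1 := Real.pow_div_factorial_le_exp (c * ((n : ℝ) + 2)) (by positivity) q
  rw [div_le_iff₀ (by positivity), mul_pow] at h1
  have h2 : ((n : ℝ) + 2) ^ q ≤ Real.exp (c * ((n : ℝ) + 2)) * (q.factorial : ℝ) / c ^ q := by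
    rw [le_div_iff₀ (by positivity)]
    linarith
  calc ((n : ℝ) + 2) ^ q * Real.exp (-(c * n))
      ≤ (Real.exp (c * ((n : ℝ) + 2)) * (q.factorial : ℝ) / c ^ q) * Real.exp (-(c * n)) :=
        mul_le_mul_of_nonneg_right h2 (Real.exp_pos _).le
    _ = (q.factorial : ℝ) / c ^ q * (Real.exp (c * ((n : ℝ) + 2)) * Real.exp (-(c * n))) := by ring
    _ = (q.factorial : ℝ) / c ^ q * Real.exp (2 * c) := by
        rw [← Real.exp_add]
        congr 2
        ring

theorem step {s s1 : ℕ → ℝ → ℂ} {E : ℝ → ℂ} {b₀ δ K c : ℝ} (hδ : 0 < δ) (hc : 0 < c) {n₀ : ℕ}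
    (hconv : ∀ n, n₀ ≤ n → ∀ b, |b - b₀| < δ → ‖s n b - E b‖ ≤ K * Real.exp (-(c * n)))
    (h1 : ∀ n b, HasDerivAt (s n) (s1 n b) b) {K2 : ℝ} {q : ℕ}
    (h2 : ∀ n : ℕ, ∃ s2 : ℝ → ℂ, (∀ b, HasDerivAt (s1 n) (s2 b) b) ∧
      ∀ b, ‖s2 b‖ ≤ K2 * ((n : ℝ) + 1) ^ q) :
    ∃ (E1 : ℝ → ℂ) (K' : ℝ), (∀ b, |b - b₀| < δ / 2 → HasDerivAt E (E1 b) b) ∧
      ∀ n, n₀ ≤ n → ∀ b, |b - b₀| < δ / 2 → ‖s1 n b - E1 b‖ ≤ K' * Real.exp (-(c / 4 * n)) := by
  have hK : 0 ≤ K := by
    have e := (norm_nonneg _).trans (hconv n₀ le_rfl b₀ (by simpa using hδ))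
    exact nonneg_of_mul_nonneg_left e (Real.exp_pos _)
  have hK2 : 0 ≤ K2 := by
    obtain ⟨s2, _, h⟩ := h2 0
    have e := (norm_nonneg _).trans (h 0)
    simpa using e
  obtain ⟨P, hP0, hP⟩ := poly_exp (show 0 < c / 4 by positivity) q
  set r : ℝ := Real.exp (-(c / 4)) with hr
  have hr0 : 0 < r := Real.exp_pos _
  have hr1 : r < 1 := by
    rw [hr, Real.exp_lt_one_iff]
    linarith
  have hrn : ∀ n : ℕ, r ^ n = Real.exp (-(c / 4 * n)) := by
    intro n
    rw [hr, ← Real.exp_nat_mul]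
    congr 1
    ring
  set B : ℝ := 16 * K / δ + δ / 2 * K2 * P with hB
  have hB0 : 0 ≤ B := by positivity
  -- consecutive differences of the derivatives
  have hdiff : ∀ n, n₀ ≤ n → ∀ b, |b - b₀| < δ / 2 → ‖s1 n b - s1 (n + 1) b‖ ≤ B * r ^ n := by
    intro n hn b hb
    obtain ⟨u2, hu, hu2⟩ := h2 n
    obtain ⟨v2, hv, hv2⟩ := h2 (n + 1)
    set x : ℝ := Real.exp (-(c / 2 * n)) with hx
    have hx0 : 0 < x := Real.exp_pos _
    have hx1 : x ≤ 1 := by
      rw [hx, Real.exp_le_one_iff]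
      have : 0 ≤ c / 2 * n := by positivity
      linarith
    have hxx : Real.exp (-(c * n)) = x * x := by
      rw [hx, ← Real.exp_add]
      congr 1
      ring
    have hxr : x = r ^ n * r ^ n := by
      rw [hrn, hx, ← Real.exp_add]
      congr 1
      ring
    have key := landau (D := fun b => s n b - s (n + 1) b) (D1 := fun b => s1 n b - s1 (n + 1) b)
      (D2 := fun b => u2 b - v2 b) (b₀ := b₀) (δ := δ) (ε := 2 * K * (x * x))
      (M := 2 * K2 * ((n : ℝ) + 2) ^ q) (b := b) (h := δ / 4 * x)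
      (fun b => (h1 n b).sub (h1 (n + 1) b)) (fun b => (hu b).sub (hv b)) ?_ ?_ hb
      (by positivity) (by nlinarith)
    · refine key.trans ?_
      have hn2 : (0 : ℝ) ≤ ((n : ℝ) + 2) ^ q := by positivity
      have e1 : 2 * (2 * K * (x * x)) / (δ / 4 * x) = 16 * K / δ * x := by
        field_simp
        ring
      have e2 : 2 * K2 * ((n : ℝ) + 2) ^ q * (δ / 4 * x) =
          δ / 2 * K2 * (((n : ℝ) + 2) ^ q * r ^ n) * r ^ n := by
        rw [hxr]
        ring
      have e3 : ((n : ℝ) + 2) ^ q * r ^ n ≤ P := by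
        rw [hrn]
        exact hP n
      have e4 : x ≤ r ^ n := by
        rw [hxr]
        have : r ^ n ≤ 1 := pow_le_one₀ hr0.le hr1.le
        have h0 : 0 ≤ r ^ n := by positivity
        nlinarith
      rw [e1, e2, hB, add_mul]
      refine add_le_add ?_ ?_
      · exact mul_le_mul_of_nonneg_left e4 (by positivity)
      · refine mul_le_mul_of_nonneg_right ?_ (by positivity)
        exact mul_le_mul_of_nonneg_left e3 (by positivity)
    · intro b' hb'
      have k1 := hconv n hn b' hb'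
      have k2 := hconv (n + 1) (by omega) b' hb'
      have k3 : Real.exp (-(c * ((n + 1 : ℕ) : ℝ))) ≤ Real.exp (-(c * n)) := by
        apply Real.exp_le_exp.2
        push_cast
        nlinarith
      have k4 : K * Real.exp (-(c * ((n + 1 : ℕ) : ℝ))) ≤ K * Real.exp (-(c * n)) :=
        mul_le_mul_of_nonneg_left k3 hK
      rw [hxx] at k1 k4
      have e : s n b' - s (n + 1) b' = (s n b' - E b') - (s (n + 1) b' - E b') := by ring
      change ‖s n b' - s (n + 1) b'‖ ≤ _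
      rw [e]
      refine (norm_sub_le _ _).trans ?_
      linarith
    · intro b'
      have k1 := hu2 b'
      have k2 := hv2 b'
      have k3 : ((n : ℝ) + 1) ^ q ≤ ((n : ℝ) + 2) ^ q := pow_le_pow_left₀ (by positivity) (by linarith) q
      have k4 : (((n + 1 : ℕ) : ℝ) + 1) ^ q = ((n : ℝ) + 2) ^ q := by
        push_cast
        ring
      rw [k4] at k2
      have k5 := mul_le_mul_of_nonneg_left k3 hK2
      refine (norm_sub_le _ _).trans ?_
      linarith
  -- the limit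
  have hcau : ∀ b, |b - b₀| < δ / 2 → ∀ m : ℕ,
      dist (s1 (n₀ + m) b) (s1 (n₀ + (m + 1)) b) ≤ B * r ^ n₀ * r ^ m := by
    intro b hb m
    rw [dist_eq_norm]
    refine (hdiff (n₀ + m) (by omega) b hb).trans (le_of_eq ?_)
    rw [pow_add]
    ring
  have hex : ∀ b, ∃ a : ℂ, |b - b₀| < δ / 2 → Tendsto (fun m : ℕ => s1 (n₀ + m) b) atTop (𝓝 a) := by
    intro b
    by_cases hb : |b - b₀| < δ / 2
    · obtain ⟨a, ha⟩ := cauchySeq_tendsto_of_complete
        (cauchySeq_of_le_geometric r (B * r ^ n₀) hr1 (hcau b hb))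
      exact ⟨a, fun _ => ha⟩
    · exact ⟨0, fun h => absurd h hb⟩
  choose E1 hE1 using hex
  have hrate : ∀ m : ℕ, ∀ b, |b - b₀| < δ / 2 →
      ‖s1 (n₀ + m) b - E1 b‖ ≤ B / (1 - r) * r ^ (n₀ + m) := by
    intro m b hb
    have := dist_le_of_le_geometric_of_tendsto r (B * r ^ n₀) hr1 (hcau b hb) (hE1 b hb) m
    rw [dist_eq_norm] at this
    refine this.trans (le_of_eq ?_)
    rw [pow_add]
    ring
  refine ⟨E1, B / (1 - r), ?_, ?_⟩
  · intro b hb
    have hopen : IsOpen {b : ℝ | |b - b₀| < δ / 2} :=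
      isOpen_lt (continuous_abs.comp (continuous_id.sub continuous_const)) continuous_const
    refine hasDerivAt_of_tendstoUniformlyOn (l := atTop) (f := fun m : ℕ => s (n₀ + m))
      (f' := fun m : ℕ => s1 (n₀ + m)) (g' := E1) hopen ?_
      (Eventually.of_forall fun m x _ => h1 (n₀ + m) x) ?_ hb
    · rw [Metric.tendstoUniformlyOn_iff]
      intro ε hε
      have ht : Tendsto (fun m : ℕ => B / (1 - r) * r ^ (n₀ + m)) atTop (𝓝 (B / (1 - r) * 0)) := by
        refine Tendsto.const_mul _ ?_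
        exact (tendsto_pow_atTop_nhds_zero_of_lt_one hr0.le hr1).comp
          (tendsto_atTop_mono (fun m => Nat.le_add_left m n₀) tendsto_id)
      rw [mul_zero] at ht
      filter_upwards [ht.eventually (gt_mem_nhds hε)] with m hm x hx
      rw [dist_comm, dist_eq_norm]
      exact (hrate m x hx).trans_lt hm
    · intro x hx
      have hx' : |x - b₀| < δ := by
        have : |x - b₀| < δ / 2 := hx
        linarith
      rw [tendsto_iff_norm_sub_tendsto_zero]
      have ht : Tendsto (fun m : ℕ => K * Real.exp (-(c * ((n₀ + m : ℕ) : ℝ)))) atTop (𝓝 (K * 0)) := by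
        refine Tendsto.const_mul _ ?_
        refine Real.tendsto_exp_atBot.comp ?_
        refine tendsto_neg_atTop_atBot.comp ?_
        refine Tendsto.const_mul_atTop hc ?_
        exact tendsto_natCast_atTop_atTop.comp
          (tendsto_atTop_mono (fun m => Nat.le_add_left m n₀) tendsto_id)
      rw [mul_zero] at ht
      refine squeeze_zero (fun m => norm_nonneg _) (fun m => ?_) ht
      exact hconv (n₀ + m) (by omega) x hx'
  · intro n hn b hb
    obtain ⟨m, rfl⟩ := Nat.exists_eq_add_of_le hn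
    rw [← hrn]
    exact hrate m b hb

theorem smooth_of (k : ℕ) : ∀ {s : ℕ → ℝ → ℂ} {E : ℝ → ℂ} {b₀ δ K c : ℝ}, 0 < δ → 0 < c →
    ∀ {n₀ : ℕ}, (∀ n, n₀ ≤ n → ∀ b, |b - b₀| < δ → ‖s n b - E b‖ ≤ K * Real.exp (-(c * n))) →
    (∀ j : ℕ, ∃ (Kj : ℝ) (q : ℕ), ∀ n : ℕ, Bd j (Kj * ((n : ℝ) + 1) ^ q) (s n)) →
    ContDiffAt ℝ k E b₀ := by
  induction k with
  | zero =>
    intro s E b₀ δ K c hδ hc n₀ hconv hd
    obtain ⟨K2, q, h2⟩ := hd 2
    obtain ⟨E1, K', hE, -⟩ := step (s1 := fun n => deriv (s n)) hδ hc hconv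
      (fun n b => (h2 n).der.1 b) (K2 := K2) (q := q)
      (fun n => ⟨deriv (deriv (s n)), (h2 n).der.2.der.1, fun b => (h2 n).der.2.der.2.le b⟩)
    have hopen : IsOpen {b : ℝ | |b - b₀| < δ / 2} :=
      isOpen_lt (continuous_abs.comp (continuous_id.sub continuous_const)) continuous_const
    have : ContDiffAt ℝ 0 E b₀ := contDiffAt_zero.2
      ⟨{b : ℝ | |b - b₀| < δ / 2}, hopen.mem_nhds (by simpa using hδ),
        fun b hb => (hE b hb).continuousAt.continuousWithinAt⟩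
    exact_mod_cast this
  | succ k ih =>
    intro s E b₀ δ K c hδ hc n₀ hconv hd
    obtain ⟨K2, q, h2⟩ := hd 2
    obtain ⟨E1, K', hE, hconv'⟩ := step (s1 := fun n => deriv (s n)) hδ hc hconv
      (fun n b => (h2 n).der.1 b) (K2 := K2) (q := q)
      (fun n => ⟨deriv (deriv (s n)), (h2 n).der.2.der.1, fun b => (h2 n).der.2.der.2.le b⟩)
    have hopen : IsOpen {b : ℝ | |b - b₀| < δ / 2} :=
      isOpen_lt (continuous_abs.comp (continuous_id.sub continuous_const)) continuous_const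
    have h3 : ContDiffAt ℝ k E1 b₀ := by
      refine ih (s := fun n => deriv (s n)) (δ := δ / 2) (K := K') (c := c / 4) (by positivity)
        (by positivity) hconv' ?_
      intro j
      obtain ⟨Kj, q', hj⟩ := hd (j + 1)
      exact ⟨Kj, q', fun n => (hj n).der.2⟩
    have h4 : ContDiffAt ℝ ((k : ℕ) + 1 : WithTop ℕ∞) E b₀ := by
      rw [contDiffAt_succ_iff_hasFDerivAt]
      refine ⟨fun b => (1 : ℝ →L[ℝ] ℝ).smulRight (E1 b),
        ⟨{b : ℝ | |b - b₀| < δ / 2}, hopen.mem_nhds (by simpa using hδ), fun b hb => ?_⟩,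
        contDiffAt_const.smulRight h3⟩
      have := hE b hb
      rw [hasDerivAt_iff_hasFDerivAt] at this
      convert! this using 1
    exact_mod_cast h4

end Pool.Agent.Helper7.TN
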